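import Mathlib.Topology.MetricSpace.Isometry

/-!
Definitions for the game of cops and robber on a geodesic metric space.
-/

namespace Pool.Agent.MP_cb1e0a_co

/-- Any two points are joined by a geodesic, i.e. an isometric image of `[0, dist x y]`. -/
def IsGeodesicSpace (X : Type) [MetricSpace X] : Prop :=
  ∀ x y : X, ∃ γ : ℝ → X, γ 0 = x ∧ γ (dist x y) = y ∧
    ∀ s ∈ Set.Icc 0 (dist x y), ∀ t ∈ Set.Icc 0 (dist x y), dist (γ s) (γ t) = |s - t|

/-- The isometry group acts transitively. -/
def IsHomogeneous (X : Type) [MetricSpace X] : Prop :=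
  ∀ x y : X, ∃ i : X ≃ᵢ X, i x = y

/-- `k` cops can win against every strategy of the robber. A strategy of the robber consists of
an agility function `τ` (step `n + 1` has length at most `τ n`), initial positions `c₀` of the
cops, and a rule `ρ` giving the robber's position `ρ c n` at time `n` from the positions of the
cops at the times before `n`. -/
def CopsWin (X : Type) [MetricSpace X] (k : ℕ) : Prop :=
  ∀ (τ : ℕ → ℝ) (c₀ : Fin k → X) (ρ : (ℕ → Fin k → X) → ℕ → X),
    (∀ n, 0 < τ n) →
    Filter.Tendsto (fun N => ∑ n ∈ Finset.range N, τ n) Filter.atTop Filter.atTop →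
    (∀ c c' n, (∀ j < n, c j = c' j) → ρ c n = ρ c' n) →
    (∀ c n, dist (ρ c n) (ρ c (n + 1)) ≤ τ n) →
    ∃ c : ℕ → Fin k → X, c 0 = c₀ ∧ (∀ n i, dist (c n i) (c (n + 1) i) ≤ τ n) ∧
      ∀ ε > 0, ∃ n i, dist (ρ c n) (c n i) < ε

end Pool.Agent.MP_cb1e0a_co
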