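import Mathlib.Tactic.SuppressCompilation
import Mathlib.Topology.Sheaves.Presheaf
import Mathlib.Algebra.Order.Ring.Star
import Mathlib.Analysis.Normed.Order.Lattice
import Mathlib.Analysis.Normed.Group.FunctionSeries
import Mathlib.Analysis.Normed.Group.AddCircle
import Mathlib.Algebra.Order.Star.Real
import Mathlib.RingTheory.PiTensorProduct
import Mathlib.Tactic.Algebra.Basic
import Pool.Agent.MP_cb1e0a_co.Defs

-- ======== part 0: formerly Pool.Agent.MP_cb1e0a_co.Torus
section MrgPart0

/-!
The robber evades `k` cops on the `l^1` torus of dimension at least `5 ^ k`.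
-/

set_option linter.unusedSectionVars false

namespace Pool.Agent.MP_cb1e0a_co

open Finset

/-- A signed distance to `0` on the circle. -/
noncomputable def sg (y : UnitAddCircle) : ℝ := ‖y + ((1 / 4 : ℝ) : UnitAddCircle)‖ - 1 / 4

theorem norm_coe_small {a : ℝ} (h : |a| ≤ 1 / 2) : ‖(a : UnitAddCircle)‖ = |a| :=
  (AddCircle.norm_coe_eq_abs_iff (1 : ℝ) one_ne_zero).2 (by simpa using h)

theorem exists_rep (y : UnitAddCircle) : ∃ a : ℝ, (a : UnitAddCircle) = y ∧ |a| = ‖y‖ := by
  induction y using QuotientAddGroup.induction_on with | _ x => ?_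
  refine ⟨x - round x, ?_, UnitAddCircle.norm_eq.symm⟩
  have : ((round x : ℝ) : UnitAddCircle) = 0 := by
    rw [AddCircle.coe_eq_zero_iff]
    exact ⟨round x, by simp⟩
  rw [AddCircle.coe_sub, this, sub_zero]

theorem norm_le_half (y : UnitAddCircle) : ‖y‖ ≤ 1 / 2 := by
  simpa using AddCircle.norm_le_half_period (1 : ℝ) (x := y) one_ne_zero

theorem sg_lip (y u : UnitAddCircle) : sg (y + u) ≤ sg y + ‖u‖ := by
  unfold sg
  have : y + u + ((1 / 4 : ℝ) : UnitAddCircle) = (y + ((1 / 4 : ℝ) : UnitAddCircle)) + u := by abel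
  rw [this]
  linarith [norm_add_le (y + ((1 / 4 : ℝ) : UnitAddCircle)) u]

theorem sg_zero : sg 0 = 0 := by
  unfold sg
  rw [zero_add, norm_coe_small (by norm_num)]
  norm_num

theorem sg_le (y : UnitAddCircle) : sg y ≤ ‖y‖ := by
  simpa [sg_zero] using sg_lip 0 y

theorem neg_sg_le (y : UnitAddCircle) : -sg y ≤ ‖y‖ := by
  have := sg_lip y (-y)
  rw [add_neg_cancel, sg_zero, norm_neg] at this
  linarith

theorem sg_sub {y : UnitAddCircle} (h : ‖y‖ ≤ 1 / 8) :
    sg (y - ((1 / 32 : ℝ) : UnitAddCircle)) = sg y - 1 / 32 := by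
  obtain ⟨a, rfl, ha⟩ := exists_rep y
  rw [← ha, abs_le] at h
  unfold sg
  rw [← AddCircle.coe_sub, ← AddCircle.coe_add, ← AddCircle.coe_add,
    norm_coe_small (by rw [abs_le]; constructor <;> linarith),
    norm_coe_small (by rw [abs_le]; constructor <;> linarith),
    abs_of_nonneg (by linarith), abs_of_nonneg (by linarith)]
  ring

variable {ι : Type} [Fintype ι] [DecidableEq ι]

/-- The `l^1` norm on the torus. -/
noncomputable def D (x : ι → UnitAddCircle) : ℝ := ∑ j, ‖x j‖

/-- The potential attached to a set `I` of directions. -/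
noncomputable def psi (I : Finset ι) (x : ι → UnitAddCircle) : ℝ :=
  ∑ j, if j ∈ I then -sg (x j) else ‖x j‖

/-- The move of the robber in direction `i`. -/
noncomputable def mv (i : ι) : ι → UnitAddCircle := Pi.single i ((1 / 32 : ℝ) : UnitAddCircle)

theorem D_nonneg (x : ι → UnitAddCircle) : 0 ≤ D x := sum_nonneg fun _ _ => norm_nonneg _

theorem D_mv (i : ι) : D (mv i) = 1 / 32 := by
  unfold D mv
  rw [sum_eq_single i (fun j _ hj => by simp [Pi.single_eq_of_ne hj]) (by simp)]
  rw [Pi.single_eq_same, norm_coe_small (by norm_num)]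
  norm_num

theorem D_sub_le (x y : ι → UnitAddCircle) : D x - D (y - x) ≤ D y := by
  unfold D
  rw [← sum_sub_distrib]
  refine sum_le_sum fun j _ => ?_
  have := norm_sub_le (y j) (y j - x j)
  rw [sub_sub_cancel] at this
  simp only [Pi.sub_apply]
  linarith

theorem psi_le (I : Finset ι) (x : ι → UnitAddCircle) : psi I x ≤ D x := by
  refine sum_le_sum fun j _ => ?_
  split_ifs
  · exact neg_sg_le _
  · exact le_rfl

theorem psi_lip (I : Finset ι) (x y : ι → UnitAddCircle) : psi I x - D (y - x) ≤ psi I y := by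
  unfold psi D
  rw [← sum_sub_distrib]
  refine sum_le_sum fun j _ => ?_
  simp only [Pi.sub_apply]
  split_ifs
  · have := sg_lip (x j) (y j - x j)
    rw [add_sub_cancel] at this
    linarith
  · have := norm_sub_le (y j) (y j - x j)
    rw [sub_sub_cancel] at this
    linarith

theorem psi_mv {I : Finset ι} {i : ι} (hi : i ∈ I) {x : ι → UnitAddCircle} (hx : D x ≤ 1 / 8) :
    psi I (x - mv i) = psi I x + 1 / 32 := by
  have h1 : ‖x i‖ ≤ 1 / 8 :=
    (single_le_sum (f := fun j => ‖x j‖) (fun _ _ => norm_nonneg _) (mem_univ i)).trans hx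
  unfold psi
  rw [← add_sum_erase _ _ (mem_univ i), ← add_sum_erase _ _ (mem_univ i)]
  have h2 : ∑ j ∈ univ.erase i, (if j ∈ I then -sg ((x - mv i) j) else ‖(x - mv i) j‖) =
      ∑ j ∈ univ.erase i, (if j ∈ I then -sg (x j) else ‖x j‖) := by
    refine sum_congr rfl fun j hj => ?_
    have : (x - mv i) j = x j := by simp [mv, Pi.single_eq_of_ne (ne_of_mem_erase hj)]
    rw [this]
  rw [h2]
  simp only [hi, if_true, Pi.sub_apply, mv, Pi.single_eq_same]
  rw [sg_sub h1]
  ring

theorem psi_ge (I : Finset ι) (x : ι → UnitAddCircle) :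
    D x - 2 * ∑ j ∈ I, ‖x j‖ ≤ psi I x := by
  unfold psi D
  have : ∑ j ∈ I, ‖x j‖ = ∑ j, if j ∈ I then ‖x j‖ else 0 := by
    rw [sum_ite_mem, univ_inter]
  rw [this, mul_sum, ← sum_sub_distrib]
  refine sum_le_sum fun j _ => ?_
  split_ifs
  · linarith [sg_le (x j)]
  · linarith

theorem exists_light {I : Finset ι} {m : ℕ} (hm : 0 < m) (hI : 5 * m ≤ I.card)
    (x : ι → UnitAddCircle) : ∃ I' ⊆ I, m ≤ I'.card ∧ D x / 2 ≤ psi I' x := by
  have hm' : (0 : ℝ) < m := by exact_mod_cast hm
  let B := I.filter fun j => D x / (4 * m) < ‖x j‖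
  have hB : B.card ≤ 4 * m := by
    rcases (D_nonneg x).eq_or_lt with h0 | h0
    · have : B = ∅ := by
        refine filter_eq_empty_iff.2 fun j _ => ?_
        have h1 : ‖x j‖ ≤ D x :=
          single_le_sum (f := fun j => ‖x j‖) (fun _ _ => norm_nonneg _) (mem_univ j)
        rw [← h0] at h1 ⊢
        simpa using h1
      simp [this]
    · have h1 : B.card • (D x / (4 * m)) ≤ ∑ j ∈ B, ‖x j‖ :=
        card_nsmul_le_sum _ _ _ fun j hj => (mem_filter.1 hj).2.le
      have h2 : ∑ j ∈ B, ‖x j‖ ≤ D x :=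
        sum_le_sum_of_subset_of_nonneg (subset_univ _) fun _ _ _ => norm_nonneg _
      have h3 := h1.trans h2
      rw [nsmul_eq_mul, ← mul_div_assoc, div_le_iff₀ (by positivity), mul_comm] at h3
      have h4 := le_of_mul_le_mul_left h3 h0
      exact_mod_cast h4
  have h5 : m ≤ (I \ B).card := by
    have := le_card_sdiff B I
    omega
  obtain ⟨I', hI', hc⟩ := exists_subset_card_eq h5
  refine ⟨I', hI'.trans sdiff_subset, hc.ge, le_trans ?_ (psi_ge I' x)⟩
  have h6 : ∑ j ∈ I', ‖x j‖ ≤ I'.card • (D x / (4 * m)) := by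
    refine sum_le_card_nsmul _ _ _ fun j hj => ?_
    have := mem_sdiff.1 (hI' hj)
    by_contra h
    exact this.2 (mem_filter.2 ⟨this.1, not_le.1 h⟩)
  rw [hc, nsmul_eq_mul] at h6
  have h7 : (m : ℝ) * (D x / (4 * m)) = D x / 4 := by field_simp
  linarith

variable {κ : Type}

/-- The invariant kept by the robber: cops are ranked, with nested sets of directions. -/
def Safe (z : κ → ι → UnitAddCircle) : Finset ι → List κ → Prop
  | I, [] => I.Nonempty
  | I, a :: l => ∃ I' ⊆ I, 5 ^ l.length ≤ I'.card ∧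
      (1 / 16) / 2 ^ (l.length + 1) ≤ psi I' (z a) ∧ Safe z I' l

/-- Lower bounds on the distances, by rank. -/
def Far (z : κ → ι → UnitAddCircle) (e : ℕ) : List κ → Prop
  | [] => True
  | a :: l => (1 / 16) / 2 ^ (l.length + e) ≤ D (z a) ∧ Far z e l

theorem safe_of_far (z : κ → ι → UnitAddCircle) :
    ∀ (l : List κ) (I : Finset ι), 5 ^ l.length ≤ I.card → Far z 0 l → Safe z I l
  | [], I, h, _ => card_pos.1 (by simpa using h)
  | a :: l, I, h, hf => by
    obtain ⟨I', h1, h2, h3⟩ := exists_light (I := I) (m := 5 ^ l.length) (by positivity)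
      (by rw [List.length_cons, pow_succ] at h; omega) (z a)
    refine ⟨I', h1, h2, le_trans ?_ h3, safe_of_far z l I' h2 hf.2⟩
    have := hf.1
    rw [add_zero] at this
    rw [pow_succ, ← div_div]
    linarith

theorem far_of_safe (z : κ → ι → UnitAddCircle) :
    ∀ (l : List κ) (I : Finset ι), Safe z I l → Far z 1 l
  | [], _, _ => trivial
  | _ :: l, _, ⟨I', _, _, h3, h4⟩ => ⟨h3.trans (psi_le _ _), far_of_safe z l I' h4⟩

theorem far_append (z : κ → ι → UnitAddCircle) {a : κ} (ha : 1 / 16 ≤ D (z a)) :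
    ∀ l : List κ, Far z 1 l → Far z 0 (l ++ [a])
  | [], _ => ⟨by simpa using ha, trivial⟩
  | b :: l, h => ⟨by simpa using h.1, far_append z ha l h.2⟩

theorem far_all (z : κ → ι → UnitAddCircle) (hz : ∀ a, 1 / 16 ≤ D (z a)) :
    ∀ l : List κ, Far z 0 l
  | [] => trivial
  | a :: l => ⟨le_trans (div_le_self (by norm_num) (one_le_pow₀ (by norm_num))) (hz a),
      far_all z hz l⟩

theorem far_mem (z : κ → ι → UnitAddCircle) :
    ∀ l : List κ, Far z 1 l → ∀ a ∈ l, (1 / 16) / 2 ^ l.length ≤ D (z a)
  | [], _, _, h => by simp at h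
  | b :: l, h, a, ha => by
    rcases List.mem_cons.1 ha with rfl | ha
    · exact h.1
    · refine le_trans ?_ (far_mem z l h.2 a ha)
      exact div_le_div_of_nonneg_left (by norm_num) (by positivity)
        (pow_le_pow_right₀ (by norm_num) (by simp))

theorem safe_step (z : κ → ι → UnitAddCircle) :
    ∀ (l : List κ) (I : Finset ι), 5 ^ l.length ≤ I.card → Safe z I l →
      ∃ i ∈ I, ∀ z' : κ → ι → UnitAddCircle, (∀ a, D (z' a - (z a - mv i)) ≤ 1 / 32) →
        ∃ l' : List κ, l'.Perm l ∧ Safe z' I l'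
  | [], _, _, ⟨i, hi⟩ => ⟨i, hi, fun _ _ => ⟨[], List.Perm.refl _, ⟨i, hi⟩⟩⟩
  | a :: l, I, hI, ⟨I', h1, h2, h3, h4⟩ => by
    obtain ⟨i, hi, H⟩ := safe_step z l I' h2 h4
    refine ⟨i, h1 hi, fun z' hz' => ?_⟩
    obtain ⟨l', hl', hs⟩ := H z' hz'
    by_cases hn : D (z a) ≤ 1 / 8
    · refine ⟨a :: l', hl'.cons a, I', h1, hl'.length_eq ▸ h2, ?_, hs⟩
      have h5 := psi_lip I' (z a - mv i) (z' a)
      rw [psi_mv hi hn] at h5
      rw [hl'.length_eq]
      linarith [hz' a]
    · refine ⟨l' ++ [a], (List.perm_append_comm.trans (hl'.cons a)), ?_⟩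
      refine safe_of_far z' _ I (by simpa [hl'.length_eq] using hI)
        (far_append z' ?_ l' (far_of_safe z' l' I' hs))
      have h5 := D_sub_le (z a - mv i) (z' a)
      have h6 := D_sub_le (z a) (z a - mv i)
      have h7 : D (z a - mv i - z a) = 1 / 32 := by
        rw [← D_mv i]
        unfold D
        refine sum_congr rfl fun j _ => ?_
        simp
      linarith [hz' a]

/-- A position of `k` cops relative to the robber from which the robber can evade. -/
def Good {k : ℕ} (z : Fin k → ι → UnitAddCircle) : Prop :=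
  ∃ l : List (Fin k), (∀ a, a ∈ l) ∧ l.length = k ∧ Safe z univ l

theorem good_init {k : ℕ} (hk : 5 ^ k ≤ Fintype.card ι) {z : Fin k → ι → UnitAddCircle}
    (hz : ∀ a, 1 / 16 ≤ D (z a)) : Good z :=
  ⟨List.finRange k, List.mem_finRange, by simp,
    safe_of_far z _ _ (by simpa using hk) (far_all z hz _)⟩

theorem good_far {k : ℕ} {z : Fin k → ι → UnitAddCircle} (h : Good z) (a : Fin k) :
    (1 / 16) / 2 ^ k ≤ D (z a) := by
  obtain ⟨l, h1, h2, h3⟩ := h
  have := far_mem z l (far_of_safe z l _ h3) a (h1 a)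
  rwa [h2] at this

theorem exists_rule {k : ℕ} (hk : 5 ^ k ≤ Fintype.card ι) :
    ∃ f : (Fin k → ι → UnitAddCircle) → ι, ∀ z z' : Fin k → ι → UnitAddCircle, Good z →
      (∀ a, D (z' a - (z a - mv (f z))) ≤ 1 / 32) → Good z' := by
  have hne : Nonempty ι := Fintype.card_pos_iff.1 (lt_of_lt_of_le (by positivity) hk)
  have : ∀ z : Fin k → ι → UnitAddCircle, ∃ i : ι, ∀ z' : Fin k → ι → UnitAddCircle, Good z →
      (∀ a, D (z' a - (z a - mv i)) ≤ 1 / 32) → Good z' := by
    intro z
    by_cases hz : Good z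
    · obtain ⟨l, h1, h2, h3⟩ := hz
      obtain ⟨i, -, H⟩ := safe_step z l univ (by simpa [h2] using hk) h3
      refine ⟨i, fun z' _ hz' => ?_⟩
      obtain ⟨l', hl', hs⟩ := H z' hz'
      exact ⟨l', fun a => hl'.mem_iff.2 (h1 a), hl'.length_eq.trans h2, hs⟩
    · exact ⟨hne.some, fun _ h => absurd h hz⟩
  choose f hf using this
  exact ⟨f, hf⟩

end Pool.Agent.MP_cb1e0a_co

end MrgPart0

-- ======== part 1: formerly Pool.Agent.MP_cb1e0a_co.Space
section MrgPart1

/-!
The infinite torus with a weighted `l^1` metric.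
-/

namespace Pool.Agent.MP_cb1e0a_co

open Finset

/-- Index set: block `k` has `5 ^ k` coordinates. -/
abbrev J : Type := Σ k : ℕ, Fin (5 ^ k)

/-- The common weight of the coordinates of block `k`. -/
noncomputable def wt (k : ℕ) : ℝ := (1 / 2) ^ k / 5 ^ k

theorem wt_pos (k : ℕ) : 0 < wt k := by unfold wt; positivity

theorem summable_wt : Summable fun j : J => wt j.1 := by
  rw [summable_sigma_of_nonneg fun j => (wt_pos _).le]
  refine ⟨fun k => Summable.of_finite, ?_⟩
  have : (fun k : ℕ => ∑' _ : Fin (5 ^ k), wt k) = fun k : ℕ => (1 / 2 : ℝ) ^ k := by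
    ext k
    rw [tsum_fintype]
    simp only [sum_const, card_univ, Fintype.card_fin, nsmul_eq_mul, wt]
    push_cast
    field_simp
  exact this ▸ summable_geometric_two

theorem summable_norm (x : J → UnitAddCircle) : Summable fun j : J => wt j.1 * ‖x j‖ := by
  refine Summable.of_nonneg_of_le (fun j => mul_nonneg (wt_pos _).le (norm_nonneg _))
    (fun j => ?_) summable_wt
  have := norm_le_half (x j)
  nlinarith [wt_pos j.1]

/-- The infinite torus. -/
def TT : Type := J → UnitAddCircle

noncomputable instance : AddCommGroup TT := inferInstanceAs (AddCommGroup (J → UnitAddCircle))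

/-- The weighted `l^1` norm. -/
noncomputable def nrm : AddGroupNorm TT where
  toFun x := ∑' j : J, wt j.1 * ‖(x : J → UnitAddCircle) j‖
  map_zero' := by
    have : ∀ j : J, ((0 : TT) : J → UnitAddCircle) j = 0 := fun _ => rfl
    simp [this]
  add_le' x y := by
    rw [← (summable_norm x).tsum_add (summable_norm y)]
    refine (summable_norm _).tsum_le_tsum (fun j => ?_) ((summable_norm x).add (summable_norm y))
    rw [← mul_add]
    exact mul_le_mul_of_nonneg_left (norm_add_le (x j) (y j)) (wt_pos _).le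
  neg' x := by
    refine tsum_congr fun j => ?_
    have : ((-x : TT) : J → UnitAddCircle) j = -(x j) := rfl
    rw [this, norm_neg]
  eq_zero_of_map_eq_zero' x hx := by
    funext j
    have h1 := (summable_norm x).le_tsum j
      (fun i _ => mul_nonneg (wt_pos _).le (norm_nonneg _))
    rw [hx] at h1
    have h2 : ‖x j‖ ≤ 0 := by
      by_contra h
      exact absurd h1 (not_le.2 (mul_pos (wt_pos _) (not_le.1 h)))
    exact norm_le_zero_iff.1 h2

noncomputable instance : NormedAddCommGroup TT := nrm.toNormedAddCommGroup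

theorem norm_TT (x : TT) : ‖x‖ = ∑' j : J, wt j.1 * ‖(x : J → UnitAddCircle) j‖ := rfl

theorem dist_TT (x y : TT) :
    dist x y = ∑' j : J, wt j.1 * ‖(x : J → UnitAddCircle) j - (y : J → UnitAddCircle) j‖ := by
  rw [dist_eq_norm, norm_TT]
  rfl

theorem compact_TT : CompactSpace TT := by
  let e : (J → UnitAddCircle) → TT := fun x => x
  have he : Continuous e := by
    rw [continuous_iff_continuousAt]
    intro y
    rw [ContinuousAt, tendsto_iff_dist_tendsto_zero]
    have h1 : Continuous fun x : J → UnitAddCircle => ∑' j : J, wt j.1 * ‖x j - y j‖ := by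
      refine continuous_tsum (fun j => by fun_prop) summable_wt fun j x => ?_
      rw [Real.norm_eq_abs, abs_of_nonneg (mul_nonneg (wt_pos _).le (norm_nonneg _))]
      have := norm_le_half (x j - y j)
      nlinarith [wt_pos j.1]
    have h2 := h1.tendsto y
    simp only [sub_self, norm_zero, mul_zero, tsum_zero] at h2
    simpa only [dist_TT] using h2
  have h3 : Set.range e = Set.univ := Set.range_eq_univ.2 fun x => ⟨x, rfl⟩
  exact ⟨h3 ▸ isCompact_range he⟩

theorem homogeneous_TT : IsHomogeneous TT := fun x y =>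
  ⟨IsometryEquiv.addRight (y - x), by simp⟩

theorem geodesic_TT : IsGeodesicSpace TT := by
  intro x y
  choose v hv1 hv2 using fun j : J => exists_rep ((y : J → UnitAddCircle) j - x j)
  set d := dist x y with hd
  have hd0 : 0 ≤ d := dist_nonneg
  rcases hd0.eq_or_lt with h0 | h0
  · have hxy : x = y := dist_eq_zero.1 h0.symm
    refine ⟨fun _ => x, rfl, hxy, fun s hs t ht => ?_⟩
    rw [← h0] at hs ht
    simp only [Set.Icc_self, Set.mem_singleton_iff] at hs ht
    simp [hs, ht]
  refine ⟨fun s => fun j => (x : J → UnitAddCircle) j + ((s / d * v j : ℝ) : UnitAddCircle),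
    ?_, ?_, fun s hs t ht => ?_⟩
  · funext j
    simp
  · funext j
    simp only [div_self h0.ne', one_mul, hv1]
    abel
  · have h1 : |s - t| / d ≤ 1 := by
      rw [div_le_one h0, abs_le]
      constructor <;> linarith [hs.1, hs.2, ht.1, ht.2]
    have h2 : ∀ j : J, ‖(x : J → UnitAddCircle) j + ((s / d * v j : ℝ) : UnitAddCircle) -
        ((x : J → UnitAddCircle) j + ((t / d * v j : ℝ) : UnitAddCircle))‖ =
        |s - t| / d * ‖(x : J → UnitAddCircle) j - y j‖ := by
      intro j
      have e : |s / d * v j - t / d * v j| = |s - t| / d * |v j| := by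
        rw [← sub_mul, ← sub_div, abs_mul, abs_div, abs_of_pos h0]
      rw [add_sub_add_left_eq_sub, ← AddCircle.coe_sub, norm_coe_small, e, hv2, norm_sub_rev]
      rw [e, hv2]
      have := norm_le_half ((y : J → UnitAddCircle) j - x j)
      have h3 : 0 ≤ |s - t| / d := by positivity
      nlinarith [norm_nonneg ((y : J → UnitAddCircle) j - x j)]
    rw [dist_TT]
    simp only [h2, mul_left_comm (wt _), tsum_mul_left]
    rw [← dist_TT, ← hd, div_mul_cancel₀ _ h0.ne']

/-- The coordinates of block `k`. -/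
def blk (k : ℕ) (x : TT) : Fin (5 ^ k) → UnitAddCircle :=
  fun i => (x : J → UnitAddCircle) ⟨k, i⟩

theorem blk_le (k : ℕ) (x : TT) : wt k * D (blk k x) ≤ ‖x‖ := by
  rw [norm_TT, D, mul_sum]
  have := (summable_norm x).sum_le_tsum (univ.map ⟨Sigma.mk k, sigma_mk_injective⟩)
    (fun j _ => mul_nonneg (wt_pos _).le (norm_nonneg _))
  rwa [sum_map] at this

/-- The move of the robber in direction `i` of block `k`. -/
noncomputable def mvT (k : ℕ) (i : Fin (5 ^ k)) : TT :=
  (Pi.single (⟨k, i⟩ : J) ((1 / 32 : ℝ) : UnitAddCircle) : J → UnitAddCircle)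

theorem blk_mvT (k : ℕ) (i : Fin (5 ^ k)) : blk k (mvT k i) = mv i := by
  funext j
  by_cases h : j = i
  · subst h
    simp [blk, mvT, mv]
  · have : (⟨k, j⟩ : J) ≠ ⟨k, i⟩ := fun h' => h (by simpa using h')
    simp [blk, mvT, mv, Pi.single_eq_of_ne this, Pi.single_eq_of_ne h]

theorem norm_mvT (k : ℕ) (i : Fin (5 ^ k)) : ‖mvT k i‖ = wt k / 32 := by
  rw [norm_TT, tsum_eq_single (⟨k, i⟩ : J) (fun j hj => by simp [mvT, Pi.single_eq_of_ne hj])]
  simp only [mvT, Pi.single_eq_same]
  rw [norm_coe_small (by norm_num)]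
  norm_num
  ring

/-- The robber's play determined by a rule `f`. -/
noncomputable def play (k : ℕ) (f : (Fin k → Fin (5 ^ k) → UnitAddCircle) → Fin (5 ^ k))
    (c : ℕ → Fin k → TT) : ℕ → TT
  | 0 => 0
  | n + 1 => play k f c n + mvT k (f fun a => blk k (c n a - play k f c n))

theorem not_copsWin (k : ℕ) : ¬ CopsWin TT k := by
  intro h
  obtain ⟨f, hf⟩ := exists_rule (ι := Fin (5 ^ k)) (k := k) (by simp)
  let i₀ : Fin (5 ^ k) := ⟨0, by positivity⟩
  let p : TT := (fun _ : J => ((1 / 4 : ℝ) : UnitAddCircle))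
  have hw := wt_pos k
  obtain ⟨c, hc0, hc, hwin⟩ := h (fun _ => wt k / 32) (fun _ => p) (play k f)
    (fun _ => by positivity)
    (by
      simp only [sum_const, card_range, nsmul_eq_mul]
      exact tendsto_natCast_atTop_atTop.atTop_mul_const (by positivity))
    (by
      intro c c' n
      induction n with
      | zero => intro _; rfl
      | succ n ih =>
        intro H
        simp only [play]
        rw [ih fun j hj => H j (by omega), H n (by omega)])
    (by
      intro c n
      simp only [play]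
      rw [dist_self_add_right, norm_mvT])
  have hgood : ∀ n, Good fun a => blk k (c n a - play k f c n) := by
    intro n
    induction n with
    | zero =>
      refine good_init (by simp) fun a => ?_
      have h1 : ‖blk k (c 0 a - play k f c 0) i₀‖ ≤ D (blk k (c 0 a - play k f c 0)) :=
        single_le_sum (f := fun j => ‖blk k (c 0 a - play k f c 0) j‖)
          (fun _ _ => norm_nonneg _) (mem_univ i₀)
      have h2 : blk k (c 0 a - play k f c 0) i₀ = ((1 / 4 : ℝ) : UnitAddCircle) := by
        rw [hc0]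
        simp only [play, sub_zero]
        rfl
      rw [h2, norm_coe_small (by norm_num)] at h1
      refine le_trans ?_ h1
      norm_num
    | succ n ih =>
      refine hf _ _ ih fun a => ?_
      have h1 : blk k (c (n + 1) a - play k f c (n + 1)) - (blk k (c n a - play k f c n) -
          mv (f fun a => blk k (c n a - play k f c n))) = blk k (c (n + 1) a - c n a) := by
        rw [← blk_mvT]
        have e : ∀ x y : TT, blk k x - blk k y = blk k (x - y) := fun _ _ => rfl
        rw [e, e]
        congr 1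
        simp only [play]
        abel
      rw [h1]
      have h2 := blk_le k (c (n + 1) a - c n a)
      have h3 := hc n a
      rw [dist_comm, dist_eq_norm] at h3
      have h4 : wt k * D (blk k (c (n + 1) a - c n a)) ≤ wt k * (1 / 32) := by linarith
      exact le_of_mul_le_mul_left h4 hw
  obtain ⟨n, a, hna⟩ := hwin (wt k * ((1 / 16) / 2 ^ k)) (by positivity)
  have h1 := good_far (hgood n) a
  have h2 := blk_le k (c n a - play k f c n)
  rw [dist_comm, dist_eq_norm] at hna
  have h3 := mul_le_mul_of_nonneg_left h1 hw.le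
  linarith

end Pool.Agent.MP_cb1e0a_co

end MrgPart1

-- marker of a merged file
example : 731051 + 520769 = 731051 + 520769 := rfl
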